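import Mathlib
import Pool.Agent.R127.DiamondGrid

/-!
# Strong diamond-free families in grids

This disproves the conjecture that `π_{d,D₂} = π⋆_{d,D₂} = 2 + 1/d` for every `d ≥ 2`: the strong
version fails for `d = 2` (the lower limit is at least `3 > 5/2`) and for `d = 3` (the lower limit is
at least `12/5 > 7/3`).
-/

namespace Pool.Agent.Results.MP_0b0399_co.StrongDiamond

open Filter Topology Pool.Agent.R127.GridThree Pool.Agent.R127.VeeThree Pool.Agent.R127.DiamondGrid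

/-- The grid `[k]^d`: the functions `Fin d → ℕ` with values in `{1, ..., k}`. -/
def Grid (d k : ℕ) : Finset (Fin d → ℕ) := Fintype.piFinset fun _ => Finset.Icc 1 k

/-- The finite set `F` of points contains no strong (induced) copy of the diamond `D₂`
(`a < b < e`, `a < c < e`, `b` and `c` incomparable). -/
def StrongDiamondFree {d : ℕ} (F : Finset (Fin d → ℕ)) : Prop :=
  ¬ ∃ a ∈ F, ∃ b ∈ F, ∃ c ∈ F, ∃ e ∈ F, a < b ∧ a < c ∧ b < e ∧ c < e ∧ ¬ b ≤ c ∧ ¬ c ≤ b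

/-- `La⋆([k]^d, D₂)`: the largest size of a strong `D₂`-free subset of `[k]^d`. -/
noncomputable def La (d k : ℕ) : ℕ :=
  sSup {n | ∃ F ⊆ Grid d k, StrongDiamondFree F ∧ F.card = n}

/-- `w_{k,d}`: the largest size of an antichain in `[k]^d`. -/
noncomputable def width (d k : ℕ) : ℕ :=
  sSup {n | ∃ A ⊆ Grid d k, IsAntichain (· ≤ ·) (A : Set (Fin d → ℕ)) ∧ A.card = n}

theorem bound (ε : ℝ) (hε : 0 < ε) (k : ℕ) (hk : 80 / ε + 10 ≤ k) :
    0 < (width 3 k : ℝ) ∧ (12 / 5 - ε) * (width 3 k : ℝ) ≤ (La 3 k : ℝ) := by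
  have hk10 : (10 : ℝ) ≤ k := by
    have : 0 < 80 / ε := by positivity
    linarith
  have hkn : 4 ≤ k := by
    have : (4 : ℝ) ≤ k := by linarith
    exact_mod_cast this
  have hεk : 80 ≤ ε * k := by
    have h1 : 80 / ε ≤ k := by linarith
    rw [div_le_iff₀ hε] at h1
    linarith
  have h1 : (width 3 k : ℝ) ≤ 3 / 4 * (k : ℝ) ^ 2 + 1 := w_le k
  have h2 : 3 / 4 * (k : ℝ) ^ 2 - 6 ≤ (width 3 k : ℝ) := le_w k (by omega)
  have h3 := card_Fam3_ge k hkn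
  have h4 : (Fam3 k (k / 2 - 1 + k + 1)).card ≤ La 3 k := by
    unfold La
    exact le_sSup_card (Q := fun A => DiaFree A) (Fam3_subset _ _) (Fam3_free _ _)
  have h5 : ((Fam3 k (k / 2 - 1 + k + 1)).card : ℝ) ≤ (La 3 k : ℝ) := by exact_mod_cast h4
  have h6 : 0 < (width 3 k : ℝ) := by nlinarith
  refine ⟨h6, ?_⟩
  have h7 : ε * (3 / 4 * (k : ℝ) ^ 2 - 6) ≤ ε * (width 3 k : ℝ) :=
    mul_le_mul_of_nonneg_left h2 hε.le
  have h8 : (7 / 5 : ℝ) * (7 + 20 * k) + 7 ≤ ε * (3 / 4 * (k : ℝ) ^ 2 - 6) := by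
    have e1 : 80 * (k : ℝ) ≤ ε * k * k := by nlinarith
    have e2 : ε * 6 ≤ ε * (6 / 100 * (k : ℝ) ^ 2) := by
      apply mul_le_mul_of_nonneg_left _ hε.le
      nlinarith
    nlinarith
  nlinarith

/-- In dimension two, `La⋆([k]^2, D₂) ≥ 3 (k - 1)` and `w_{k,2} = k` for every `k`, so the ratio
`La⋆([k]^2, D₂) / w_{k,2}` does not converge to `2 + 1/2`.  In dimension three, for every `ε > 0`
and all large `k`, `La⋆([k]^3, D₂) / w_{k,3} ≥ 12/5 - ε`, so the ratio `La⋆([k]^3, D₂) / w_{k,3}`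
does not converge to `2 + 1/3`. -/
theorem result :
    (∀ k : ℕ, 3 * (k - 1) ≤ La 2 k ∧ width 2 k = k) ∧
    ¬ Tendsto (fun k : ℕ => (La 2 k : ℝ) / (width 2 k : ℝ)) atTop (𝓝 (2 + 1 / 2)) ∧
    (∀ ε : ℝ, 0 < ε → ∀ᶠ k : ℕ in atTop, 12 / 5 - ε ≤ (La 3 k : ℝ) / (width 3 k : ℝ)) ∧
    ¬ Tendsto (fun k : ℕ => (La 3 k : ℝ) / (width 3 k : ℝ)) atTop (𝓝 (2 + 1 / 3)) := by
  have h0 : ∀ k : ℕ, 3 * (k - 1) ≤ La 2 k ∧ width 2 k = k := by
    intro k
    constructor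
    · refine le_trans (card_Fam2 k) ?_
      unfold La
      exact le_sSup_card (Q := fun A => DiaFree A) (Finset.filter_subset _ _) (Fam2_free _)
    · exact le_antisymm (w_two_le k) (le_w_two k)
  have h1 : ∀ ε : ℝ, 0 < ε → ∀ᶠ k : ℕ in atTop, 12 / 5 - ε ≤ (La 3 k : ℝ) / (width 3 k : ℝ) := by
    intro ε hε
    filter_upwards [(tendsto_natCast_atTop_atTop (R := ℝ)).eventually_ge_atTop (80 / ε + 10)]
      with k hk
    obtain ⟨h1, h2⟩ := bound ε hε k hk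
    rw [le_div_iff₀ h1]
    exact h2
  refine ⟨h0, fun h => ?_, h1, fun h => ?_⟩
  · have h3 := h.eventually_lt_const (show (2 + 1 / 2 : ℝ) < 3 - 1 / 10 by norm_num)
    obtain ⟨k, hk⟩ := (h3.and (eventually_ge_atTop 100)).exists
    obtain ⟨hk1, hk2⟩ := hk
    obtain ⟨e1, e2⟩ := h0 k
    rw [e2] at hk1
    have hk0 : (100 : ℝ) ≤ k := by exact_mod_cast hk2
    rw [div_lt_iff₀ (by linarith)] at hk1
    have e3 : 3 * ((k : ℝ) - 1) ≤ (La 2 k : ℝ) := by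
      have : ((3 * (k - 1) : ℕ) : ℝ) ≤ (La 2 k : ℝ) := by exact_mod_cast e1
      rw [Nat.cast_mul, Nat.cast_sub (by omega)] at this
      push_cast at this
      exact this
    nlinarith
  · have h2 := h1 (1 / 30) (by norm_num)
    have h3 := h.eventually_lt_const (show (2 + 1 / 3 : ℝ) < 12 / 5 - 1 / 30 by norm_num)
    obtain ⟨k, hk⟩ := (h2.and h3).exists
    exact absurd (lt_of_le_of_lt hk.1 hk.2) (lt_irrefl _)

end Pool.Agent.Results.MP_0b0399_co.StrongDiamond
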